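import Mathlib
import Pool.Agent.W610.HY.Stm

/-!
# Project HY: small neighbourhoods and growth of finite exponential order give integrability
-/

set_option autoImplicit false

namespace Pool.Agent.W428.HY.MINK

open Pool.Agent.W610.HY MeasureTheory Set Metric Filter Topology

lemma posLog_exp_le (t : ℝ) : Real.posLog (Real.exp t) ≤ |t| := by
  have h : Real.posLog (Real.exp t) = max 0 (Real.log (Real.exp t)) := rfl
  rw [h, Real.log_exp]
  exact max_le (abs_nonneg t) (le_abs_self t)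

theorem main (hMEAS : MEAS) : Pool.Agent.W610.HY.MINK := by
  intro 𝒜 _ _ _ a U E C k ε hU hUb hE hk hε hsp hres hvol
  set s : ℝ := (1 / 2 : ℝ) ^ (k + ε) with hs
  set b : ℝ := (1 / 2 : ℝ) ^ (-k) with hb
  have hs0 : 0 < s := Real.rpow_pos_of_pos (by norm_num) _
  have hb0 : 0 < b := Real.rpow_pos_of_pos (by norm_num) _
  have hs1 : s < 1 := Real.rpow_lt_one (by norm_num) (by norm_num) (by linarith)
  have hsb1 : s * b < 1 := by
    rw [hs, hb, ← Real.rpow_add (by norm_num : (0:ℝ) < 1 / 2)]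
    exact Real.rpow_lt_one (by norm_num) (by norm_num) (by linarith)
  have hpow : ∀ n : ℕ, volume {z : ℂ | z ∈ U ∧ infDist z E ≤ (1 / 2 : ℝ) ^ n} ≤
      ENNReal.ofReal (C * s ^ n) := by
    intro n
    have h := hvol ((1 / 2 : ℝ) ^ n) (by positivity) (pow_le_one₀ (by norm_num) (by norm_num))
    rwa [← Real.rpow_pow_comm (by norm_num : (0:ℝ) ≤ 1 / 2)] at h
  have hzero : ∀ S : Set ℂ, (∀ z ∈ S, z ∈ U ∧ infDist z E = 0) → volume S = 0 := by
    intro S hS
    have hle : ∀ n : ℕ, volume S ≤ ENNReal.ofReal (C * s ^ n) := by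
      intro n
      refine le_trans (measure_mono fun z hz => ?_) (hpow n)
      refine ⟨(hS z hz).1, ?_⟩
      rw [(hS z hz).2]
      positivity
    have ht : Tendsto (fun n : ℕ => ENNReal.ofReal (C * s ^ n)) atTop (𝓝 0) := by
      have h1 : Tendsto (fun n : ℕ => C * s ^ n) atTop (𝓝 (C * 0)) :=
        (tendsto_pow_atTop_nhds_zero_of_lt_one hs0.le hs1).const_mul C
      rw [mul_zero] at h1
      have h2 := ENNReal.tendsto_ofReal h1
      rwa [ENNReal.ofReal_zero] at h2
    exact le_antisymm (ge_of_tendsto' ht hle) zero_le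
  have hEU : volume (E ∩ U) = 0 :=
    hzero _ fun z hz => ⟨hz.2, infDist_zero_of_mem hz.1⟩
  have hsub : spectrum ℂ a ∩ U ⊆ E ∩ U := fun z hz => ⟨hsp hz, hz.2⟩
  refine ⟨measure_mono_null hsub hEU, ?_⟩
  rcases E.eq_empty_or_nonempty with rfl | hne
  · have hU0 : volume U = 0 := hzero U fun z hz => ⟨hz, infDist_empty⟩
    rw [IntegrableOn, Measure.restrict_eq_zero.2 hU0]
    exact integrable_zero_measure
  have hmeas : Measurable (fun z : ℂ => Real.posLog ‖resolvent a z‖) := by
    have h1 : Measurable (fun z : ℂ => ‖resolvent a z‖) := (hMEAS 𝒜 a).norm.measurable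
    exact Real.continuous_posLog.measurable.comp h1
  refine ⟨hmeas.aestronglyMeasurable, ?_⟩
  rw [hasFiniteIntegral_iff_ofReal (Eventually.of_forall fun z => Real.posLog_nonneg)]
  -- pointwise bound
  have hbd : ∀ z ∈ U, ∀ n : ℕ, (1 / 2 : ℝ) ^ n < infDist z E →
      ENNReal.ofReal (Real.posLog ‖resolvent a z‖) ≤ ENNReal.ofReal (|C| * b ^ n) := by
    intro z hz n hn
    apply ENNReal.ofReal_le_ofReal
    have hn0 : (0:ℝ) < (1 / 2 : ℝ) ^ n := by positivity
    have hzE : z ∉ E := by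
      intro hzE
      rw [infDist_zero_of_mem hzE] at hn
      linarith
    have h1 := Real.posLog_le_posLog (norm_nonneg _) (hres z hz hzE)
    have h2 : infDist z E ^ (-k) ≤ b ^ n := by
      rw [hb, Real.rpow_pow_comm (by norm_num : (0:ℝ) ≤ 1 / 2)]
      exact Real.rpow_le_rpow_of_nonpos hn0 hn.le (by linarith)
    have h3 : 0 ≤ infDist z E ^ (-k) := Real.rpow_nonneg infDist_nonneg _
    calc Real.posLog ‖resolvent a z‖ ≤ |C * infDist z E ^ (-k)| := h1.trans (posLog_exp_le _)
      _ = |C| * infDist z E ^ (-k) := by rw [abs_mul, abs_of_nonneg h3]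
      _ ≤ |C| * b ^ n := mul_le_mul_of_nonneg_left h2 (abs_nonneg _)
  set g : ℂ → ENNReal := fun z => ENNReal.ofReal (Real.posLog ‖resolvent a z‖) with hg
  set D0 : Set ℂ := {z | z ∈ U ∧ 1 < infDist z E} with hD0
  set D : ℕ → Set ℂ := fun j => {z | z ∈ U ∧ ((1 / 2 : ℝ) ^ (j + 1) < infDist z E ∧
    infDist z E ≤ (1 / 2 : ℝ) ^ j)} with hD
  have hcd : Continuous (fun z : ℂ => infDist z E) := continuous_infDist_pt E
  have hD0m : MeasurableSet D0 :=
    hU.measurableSet.inter (measurableSet_lt measurable_const hcd.measurable)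
  have hDm : ∀ j, MeasurableSet (D j) := fun j =>
    hU.measurableSet.inter ((measurableSet_lt measurable_const hcd.measurable).inter
      (measurableSet_le hcd.measurable measurable_const))
  have hcov : U ⊆ (E ∩ U) ∪ (D0 ∪ ⋃ j, D j) := by
    intro z hz
    by_cases hzE : z ∈ E
    · exact Or.inl ⟨hzE, hz⟩
    right
    have hd : 0 < infDist z E := (hE.notMem_iff_infDist_pos hne).1 hzE
    by_cases h1 : 1 < infDist z E
    · exact Or.inl ⟨hz, h1⟩
    · right
      obtain ⟨n, hn1, hn2⟩ := exists_nat_pow_near_of_lt_one hd (not_lt.1 h1)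
        (by norm_num : (0:ℝ) < 1 / 2) (by norm_num)
      exact mem_iUnion.2 ⟨n, hz, hn1, hn2⟩
  have hI0 : ∫⁻ z in E ∩ U, g z = 0 := setLIntegral_measure_zero _ _ hEU
  have hI1 : ∫⁻ z in D0, g z ≤ ENNReal.ofReal |C| * volume U := by
    calc ∫⁻ z in D0, g z ≤ ∫⁻ z in D0, ENNReal.ofReal |C| := by
          refine setLIntegral_mono' hD0m fun z hz => ?_
          have := hbd z hz.1 0 (by rw [pow_zero]; exact hz.2)
          rwa [pow_zero, mul_one] at this
      _ = ENNReal.ofReal |C| * volume D0 := setLIntegral_const _ _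
      _ ≤ ENNReal.ofReal |C| * volume U :=
          mul_le_mul_right (measure_mono fun z hz => hz.1) _
  have hI2 : ∀ j, ∫⁻ z in D j, g z ≤ ENNReal.ofReal (|C| * b * |C| * (s * b) ^ j) := by
    intro j
    calc ∫⁻ z in D j, g z ≤ ∫⁻ z in D j, ENNReal.ofReal (|C| * b ^ (j + 1)) := by
          refine setLIntegral_mono' (hDm j) fun z hz => ?_
          exact hbd z hz.1 (j + 1) hz.2.1
      _ = ENNReal.ofReal (|C| * b ^ (j + 1)) * volume (D j) := setLIntegral_const _ _
      _ ≤ ENNReal.ofReal (|C| * b ^ (j + 1)) * ENNReal.ofReal (|C| * s ^ j) := by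
          refine mul_le_mul_right ?_ _
          refine le_trans (measure_mono fun z hz => ?_) (le_trans (hpow j)
            (ENNReal.ofReal_le_ofReal (mul_le_mul_of_nonneg_right (le_abs_self C) (by positivity))))
          exact ⟨hz.1, hz.2.2⟩
      _ = ENNReal.ofReal (|C| * b * |C| * (s * b) ^ j) := by
          rw [← ENNReal.ofReal_mul (by positivity)]
          congr 1
          rw [mul_pow, pow_succ]
          ring
  have hsum : Summable (fun j : ℕ => |C| * b * |C| * (s * b) ^ j) :=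
    (summable_geometric_of_lt_one (by positivity) hsb1).mul_left _
  have hI3 : ∫⁻ z in ⋃ j, D j, g z < ⊤ := by
    calc ∫⁻ z in ⋃ j, D j, g z ≤ ∑' j, ∫⁻ z in D j, g z := lintegral_iUnion_le _ _
      _ ≤ ∑' j, ENNReal.ofReal (|C| * b * |C| * (s * b) ^ j) := ENNReal.tsum_le_tsum hI2
      _ < ⊤ := by
          rw [← ENNReal.ofReal_tsum_of_nonneg (fun j => by positivity) hsum]
          exact ENNReal.ofReal_lt_top
  have hUfin : volume U < ⊤ := hUb.measure_lt_top
  calc ∫⁻ z in U, g z ≤ ∫⁻ z in (E ∩ U) ∪ (D0 ∪ ⋃ j, D j), g z := lintegral_mono_set hcov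
    _ ≤ (∫⁻ z in E ∩ U, g z) + (∫⁻ z in D0 ∪ ⋃ j, D j, g z) := lintegral_union_le _ _ _
    _ ≤ (∫⁻ z in E ∩ U, g z) + ((∫⁻ z in D0, g z) + (∫⁻ z in ⋃ j, D j, g z)) :=
        add_le_add le_rfl (lintegral_union_le _ _ _)
    _ < ⊤ := by
        rw [hI0, zero_add]
        exact ENNReal.add_lt_top.2 ⟨lt_of_le_of_lt hI1
          (ENNReal.mul_lt_top ENNReal.ofReal_lt_top hUfin), hI3⟩

end Pool.Agent.W428.HY.MINK
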